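import Mathlib
import Pool.Agent.Y734.I.StmsB
import Pool.Agent.Y734.I.IND.Ind

/-!
Job UE (helper734, project Y734/I), by helper141: the unit equation for sequences of rational
numbers along an ultrafilter.
-/

set_option autoImplicit false

namespace Pool.Agent.Y734.I.UE

open Pool.Agent.Y734.I Filter Pool.Agent.TH551.SU Pool.Agent.Y734.I.IND

/-- sequences with nonconstant quotients satisfy no relation with nonzero coefficients -/
theorem norel (U : Ultrafilter ℕ) (S : Finset ℕ) (hS : ∀ p ∈ S, p.Prime) {n : ℕ}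
    (x : Fin n → ℕ → ℚ) (hx0 : ∀ j t, x j t ≠ 0)
    (hv : ∀ i j t (p : ℕ), p.Prime → p ∉ S → padicValRat p (x i t) = padicValRat p (x j t))
    (a : Fin n → ℚ) (ha : ∀ j, a j ≠ 0) (h : ∀ᶠ t in (U : Filter ℕ), ∑ j, a j * x j t = 0)
    (hne : ∀ i j, i ≠ j → ∀ c : ℚ, ¬ ∀ᶠ t in (U : Filter ℕ), x i t = c * x j t) : n = 0 := by
  by_contra hn
  have hn0 : 0 < n := Nat.pos_of_ne_zero hn
  set i₀ : Fin n := ⟨0, hn0⟩ with hi₀
  obtain ⟨H, hH⟩ := Pool.Agent.TH526.ZL.sunit (bb S) (fun v => hS _ (bb_mem S v)) (bb_inj S)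
    a ha i₀
  have hSU : ∀ t j, IsSU (bb S) (x j t / x i₀ t) := by
    intro t j
    apply isSU hS (div_ne_zero (hx0 j t) (hx0 i₀ t))
    intro p hp hpS
    have : Fact p.Prime := ⟨hp⟩
    rw [padicValRat.div (hx0 j t) (hx0 i₀ t), hv j i₀ t p hp hpS, sub_self]
  have hev : ∀ᶠ t in (U : Filter ℕ), ∃ j : Fin n, j ≠ i₀ ∧
      ∃ c ∈ {c : ℚ | c.num.natAbs ≤ H ∧ c.den ≤ H}, x i₀ t / x j t = c := by
    filter_upwards [h] with t ht
    obtain ⟨j, hj, h1, h2⟩ := hH (fun j => x j t / x i₀ t) (hSU t) (by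
      simp_rw [← mul_div_assoc]
      rw [← Finset.sum_div, ht, zero_div])
    refine ⟨j, hj, _, ⟨h1, h2⟩, ?_⟩
    rw [div_div_div_cancel_right₀ (hx0 i₀ t)]
  rw [Ultrafilter.eventually_exists_iff] at hev
  obtain ⟨j, hj⟩ := hev
  have hji : j ≠ i₀ := by
    obtain ⟨t, ht⟩ := hj.exists
    exact ht.1
  have hj' : ∀ᶠ t in (U : Filter ℕ), ∃ c ∈ {c : ℚ | c.num.natAbs ≤ H ∧ c.den ≤ H},
      x i₀ t / x j t = c := hj.mono fun t ht => ht.2
  rw [Ultrafilter.eventually_exists_mem_iff (fin_ht H)] at hj'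
  obtain ⟨c, _, hc⟩ := hj'
  refine hne i₀ j hji.symm c ?_
  filter_upwards [hc] with t ht
  rw [div_eq_iff (hx0 j t)] at ht
  exact ht

/-- Job UE -/
theorem ue : UeStmt := by
  intro U S hS m f hf0 hv c hc i I hI
  classical
  -- the equivalence relation
  let R : Setoid (Fin m) :=
    { r := fun j k => ∃ a : ℚ, ∀ᶠ t in (U : Filter ℕ), f j t = a * f k t
      iseqv :=
        { refl := fun j => ⟨1, Eventually.of_forall fun t => (one_mul _).symm⟩
          symm := by
            rintro j k ⟨a, ha⟩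
            refine ⟨a⁻¹, ?_⟩
            filter_upwards [ha] with t ht
            have ha0 : a ≠ 0 := by
              rintro rfl
              exact hf0 j t (by rw [ht, zero_mul])
            rw [ht, inv_mul_cancel_left₀ ha0]
          trans := by
            rintro j k l ⟨a, ha⟩ ⟨b, hb⟩
            refine ⟨a * b, ?_⟩
            filter_upwards [ha, hb] with t h1 h2
            rw [h1, h2, mul_assoc] } }
  have : Fintype (Quotient R) := Fintype.ofFinite _
  let r : Quotient R → Fin m := fun K => K.out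
  have hr : ∀ j, ∃ a : ℚ, ∀ᶠ t in (U : Filter ℕ), f j t = a * f (r (Quotient.mk R j)) t := by
    intro j
    exact R.iseqv.symm (Quotient.mk_out j)
  choose α hα using hr
  let C : Quotient R → ℚ := fun K =>
    ∑ j ∈ Finset.univ.filter (fun j => Quotient.mk R j = K), c j * α j
  have hall : ∀ᶠ t in (U : Filter ℕ), ∀ j, f j t = α j * f (r (Quotient.mk R j)) t :=
    eventually_all.2 hα
  -- the sum over a class
  have key : ∀ t, (∀ j, f j t = α j * f (r (Quotient.mk R j)) t) → ∀ K,
      ∑ j ∈ Finset.univ.filter (fun j => Quotient.mk R j = K), c j * f j t =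
        C K * f (r K) t := by
    intro t ht K
    rw [Finset.sum_mul]
    refine Finset.sum_congr rfl fun j hj => ?_
    have hjK := (Finset.mem_filter.1 hj).2
    rw [ht j, hjK, mul_assoc]
  have hsum : ∀ᶠ t in (U : Filter ℕ), ∑ K, C K * f (r K) t = 0 := by
    filter_upwards [hc, hall] with t h1 h2
    rw [← h1, ← Finset.sum_fiberwise Finset.univ (Quotient.mk R) (fun i => c i * f i t)]
    exact Finset.sum_congr rfl fun K _ => (key t h2 K).symm
  have hC : ∀ K, C K = 0 := by
    by_contra hcon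
    push Not at hcon
    set T : Finset (Quotient R) := Finset.univ.filter fun K => C K ≠ 0 with hT
    set μ : Fin T.card → Quotient R := fun j => (T.equivFin.symm j : Quotient R) with hμ
    have hμi : Function.Injective μ := fun v w h => T.equivFin.symm.injective (Subtype.ext h)
    have hμT : ∀ j, C (μ j) ≠ 0 := fun j => (Finset.mem_filter.1 (T.equivFin.symm j).2).2
    have h0 := norel U S hS (fun j => f (r (μ j))) (fun j t => hf0 _ _) (fun j k t => hv _ _ t)
      (fun j => C (μ j)) hμT ?_ ?_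
    · obtain ⟨K, hK⟩ := hcon
      have : K ∈ T := Finset.mem_filter.2 ⟨Finset.mem_univ _, hK⟩
      exact (Finset.card_pos.2 ⟨K, this⟩).ne' h0
    · filter_upwards [hsum] with t ht
      have h1 : ∑ K, C K * f (r K) t = ∑ K ∈ T, C K * f (r K) t := by
        refine (Finset.sum_subset (Finset.subset_univ T) fun K _ hK => ?_).symm
        have : C K = 0 := by
          by_contra h
          exact hK (Finset.mem_filter.2 ⟨Finset.mem_univ _, h⟩)
        rw [this, zero_mul]
      rw [← ht, h1, ← Finset.sum_coe_sort T]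
      exact Fintype.sum_equiv T.equivFin.symm _ _ fun j => rfl
    · intro j k hjk b hb
      apply hjk
      apply hμi
      have h2 : Quotient.mk R (r (μ j)) = Quotient.mk R (r (μ k)) := Quotient.sound ⟨b, hb⟩
      have h3 : ∀ K, Quotient.mk R (r K) = K := fun K => Quotient.out_eq K
      rw [h3, h3] at h2
      exact h2
  have hIe : I = Finset.univ.filter (fun j => Quotient.mk R j = Quotient.mk R i) := by
    ext j
    rw [hI, Finset.mem_filter]
    exact ⟨fun h => ⟨Finset.mem_univ _, Quotient.sound h⟩, fun h => Quotient.exact h.2⟩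
  filter_upwards [hall] with t ht
  rw [hIe, key t ht, hC, zero_mul]

end Pool.Agent.Y734.I.UE
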